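import Pool.Agent.LeoK.StrStmts
import Pool.Agent.Helper83_Leo3.Gup
import Pool.Agent.Helper21_Leo3.Tow
import Pool.Agent.Helper11_Leo3.Loc

/-!
# Squad leok, module GUP3: going up in Galois extensions of 3-power degree unramified outside 3

The proofs follow `Pool.Agent.Helper83_Leo3.Gup` (helper83) and `Pool.Agent.Helper21_Leo3.Tow`
(helper21), with the primes above 6 replaced by the primes above 3.
-/

set_option autoImplicit false

open NumberField IsDedekindDomain WithZero Module Polynomial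

namespace Pool.Agent.LeoK.H19

open Pool.Agent.Leo3 Pool.Agent.LeoK
open Pool.Agent.Leo3.H83 (val_equiv inLoc_mul inLoc_inv inLoc_self locCube_map locCube_mul
  locCube_inv eq_one_of_cube)

section val

variable {L : Type} [Field L] [NumberField L]

theorem valCube3_map {z : L} (hz : ValCube3 z) (σ : L ≃+* L) : ValCube3 (σ z) := by
  intro q hq
  rw [val_equiv σ q z]
  apply hz
  intro h
  apply hq
  have h' : (RingOfIntegers.mapRingEquiv σ : 𝓞 L →+* 𝓞 L) 3 ∈ q.asIdeal := h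
  have e3 : (RingOfIntegers.mapRingEquiv σ : 𝓞 L →+* 𝓞 L) 3 = 3 := map_ofNat _ 3
  rw [e3] at h'
  exact h'

theorem valCube3_mul {z w : L} (hz : ValCube3 z) (hw : ValCube3 w) : ValCube3 (z * w) := by
  intro q hq
  obtain ⟨x, hx⟩ := hz q hq
  obtain ⟨y, hy⟩ := hw q hq
  exact ⟨x * y, by rw [map_mul, hx, hy, mul_pow]⟩

theorem valCube3_inv {z : L} (hz : ValCube3 z) : ValCube3 z⁻¹ := by
  intro q hq
  obtain ⟨x, hx⟩ := hz q hq
  exact ⟨x⁻¹, by rw [map_inv₀, hx, inv_pow]⟩

theorem valCube3_cube (s : L) : ValCube3 (s ^ 3) := by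
  intro q hq
  exact ⟨q.valuation L s, by rw [map_pow]⟩

end val

section main

variable {K L : Type} [Field K] [NumberField K] [Field L] [NumberField L] [Algebra K L]

theorem valCube3_down (hU : UnrOut3 K L) {k : K} (h : ValCube3 (algebraMap K L k)) : ValCube3 k := by
  intro q hq
  have hqm : q.asIdeal.IsMaximal := q.isPrime.isMaximal q.ne_bot
  obtain ⟨P, hPm, hPo⟩ := Ideal.exists_maximal_ideal_liesOver_of_isIntegral q.asIdeal (S := 𝓞 L)
  have hPp : P.IsPrime := hPm.isPrime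
  have hPb : P ≠ ⊥ := by
    rintro rfl
    apply q.ne_bot
    have h1 := hPo.over
    rw [h1]
    exact Ideal.under_bot (𝓞 K) (𝓞 L)
  have hm : (3 : 𝓞 L) ∉ P := by
    intro hm
    apply hq
    rw [hPo.over, Ideal.mem_under]
    rw [map_ofNat]
    exact hm
  have hu := hU P hPb hm
  let w : HeightOneSpectrum (𝓞 L) := ⟨P, hPp, hPb⟩
  have hwl : w.asIdeal.LiesOver q.asIdeal := hPo
  have hram : q.asIdeal.ramificationIdx' w.asIdeal = 1 := by
    have h2 : q.asIdeal.ramificationIdx' P = P.ramificationIdx (𝓞 K) :=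
      Ideal.ramificationIdx'_eq_ramificationIdx q.asIdeal P q.ne_bot
    have h3 : P.ramificationIdx (𝓞 K) = 1 := Ideal.ramificationIdx_eq_one P (𝓞 K)
    exact h2.trans h3
  have hv := HeightOneSpectrum.valuation_liesOver (K := K) L q w k
  rw [hram, pow_one] at hv
  rw [hv]
  exact h w hm

theorem step [IsGalois K L] (hU : UnrOut3 K L) (hK : NoMu K) (σ : L ≃ₐ[K] L)
    (hσ : ∀ τ : L ≃ₐ[K] L, τ ∈ Subgroup.zpowers σ)
    (hdesc : ∀ (φ : L →+* Om) (t : Om), InLoc φ t →
        InLoc (φ.comp (algebraMap K L)) (t ^ 3) → InLoc (φ.comp (algebraMap K L)) t)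
    (hW : W3 K) (w : L) (hw0 : w ≠ 0) (hwv : ValCube3 w) (hwl : LocCube w)
    (ht : ∃ t : L, t ^ 3 = σ w / w) : ∃ y : L, y ^ 3 = w := by
  obtain ⟨t, ht⟩ := ht
  have hwt : σ w = w * t ^ 3 := by rw [ht]; field_simp
  have hfin : FiniteDimensional K L := Module.Finite.of_restrictScalars_finite ℚ K L
  -- norm
  have hn3 : (Algebra.norm K t) ^ 3 = 1 := by
    have h1 : Algebra.norm K w * (Algebra.norm K t) ^ 3 = Algebra.norm K w * 1 := by
      rw [← map_pow, ← map_mul, ← hwt, mul_one, Algebra.norm_eq_of_algEquiv σ w]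
    exact mul_left_cancel₀ (by rw [Ne, Algebra.norm_eq_zero_iff]; exact hw0) h1
  have hn : Algebra.norm K t = 1 := eq_one_of_cube hK hn3
  have hcyc : IsCyclic (L ≃ₐ[K] L) := ⟨σ, hσ⟩
  obtain ⟨s, hs⟩ := groupCohomology.exists_div_of_norm_eq_one hσ hn
  have hs0 : (s : L) ≠ 0 := s.ne_zero
  have hσs : σ (s : L) ≠ 0 := by
    intro h
    exact hs0 (by simp at h)
  have hs' : t * σ (s : L) = s := by
    rw [← hs]
    exact div_mul_cancel₀ _ hσs
  -- invariance
  have hinv : σ (w * (s : L) ^ 3) = w * (s : L) ^ 3 := by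
    rw [map_mul, map_pow, hwt, mul_assoc, ← mul_pow, hs']
  have hall : ∀ τ : L ≃ₐ[K] L, τ (w * (s : L) ^ 3) = w * (s : L) ^ 3 := by
    intro τ
    obtain ⟨n, rfl⟩ := Subgroup.mem_zpowers_iff.mp (hσ τ)
    have hstab : σ ∈ MulAction.stabilizer (L ≃ₐ[K] L) (w * (s : L) ^ 3) := hinv
    exact (Subgroup.zpow_mem _ hstab n : σ ^ n ∈ MulAction.stabilizer (L ≃ₐ[K] L) (w * (s : L) ^ 3))
  have hbot := (IsGalois.mem_bot_iff_fixed (F := K) (E := L) (w * (s : L) ^ 3)).mpr hall
  obtain ⟨k, hk⟩ := IntermediateField.mem_bot.mp hbot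
  have hk0 : k ≠ 0 := by
    rintro rfl
    rw [map_zero] at hk
    exact mul_ne_zero hw0 (pow_ne_zero 3 hs0) hk.symm
  have hkv : ValCube3 k := by
    apply valCube3_down hU
    rw [hk]
    exact valCube3_mul hwv (valCube3_cube _)
  have hkl : LocCube k := by
    intro φ
    obtain ⟨ψ, hψ⟩ := Pool.Agent.Leo3.H83.exists_ext K L φ
    obtain ⟨u, hu, hu3⟩ := hwl ψ
    have h3 : (u * ψ s) ^ 3 = φ k := by
      rw [mul_pow, hu3, ← map_pow, ← map_mul, ← hk, ← hψ]
      rfl
    refine ⟨u * ψ s, ?_, h3⟩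
    rw [← hψ]
    apply hdesc ψ _ (inLoc_mul hu (inLoc_self ψ _))
    rw [h3, hψ]
    exact inLoc_self φ k
  obtain ⟨y, hy⟩ := hW k hk0 hkv hkl
  refine ⟨algebraMap K L y / s, ?_⟩
  rw [div_pow, ← map_pow, hy, hk]
  field_simp

end main

/-- GUP: one step going up. -/
theorem gupStep (K L : Type) [Field K] [NumberField K] [Field L] [NumberField L] [Algebra K L]
    [IsGalois K L] (h3 : finrank K L = 3) (hU : UnrOut3 K L) (hK : NoMu K) (hW : W3 K) :
    NoMu L ∧ W3 L := by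
  have hfin : FiniteDimensional K L := Module.Finite.of_restrictScalars_finite ℚ K L
  obtain ⟨hL, hdesc⟩ := Pool.Agent.Leo3.H11.loc K L h3 hK
  refine ⟨hL, ?_⟩
  have hcard : Nat.card (L ≃ₐ[K] L) = 3 := by
    rw [IsGalois.card_aut_eq_finrank, h3]
  have hp : Fact (Nat.Prime 3) := ⟨Nat.prime_three⟩
  obtain ⟨σ, hσ⟩ := (isCyclic_of_prime_card hcard).exists_generator
  have hσ3 : ∀ x : L, σ (σ (σ x)) = x := by
    intro x
    have h : σ ^ 3 = 1 := by
      rw [← hcard]
      exact pow_card_eq_one'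
    have h2 : (σ ^ 3 : L ≃ₐ[K] L) x = x := by rw [h]; rfl
    exact h2
  intro z hz0 hzv hzl
  -- closure of the class under `w ↦ σ w / w`
  have hcl : ∀ w : L, w ≠ 0 ∧ ValCube3 w ∧ LocCube w →
      σ w / w ≠ 0 ∧ ValCube3 (σ w / w) ∧ LocCube (σ w / w) := by
    rintro w ⟨h0, hv, hl⟩
    have hσw : σ w ≠ 0 := by
      intro h
      exact h0 (by simpa using h)
    refine ⟨div_ne_zero hσw h0, ?_, ?_⟩
    · rw [div_eq_mul_inv]
      exact valCube3_mul (valCube3_map hv (σ : L ≃+* L)) (valCube3_inv hv)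
    · rw [div_eq_mul_inv]
      exact locCube_mul (locCube_map hl (σ : L ≃+* L)) (locCube_inv hl)
  have hst : ∀ w : L, w ≠ 0 ∧ ValCube3 w ∧ LocCube w → (∃ t : L, t ^ 3 = σ w / w) →
      ∃ y : L, y ^ 3 = w := fun w hw ht => step hU hK σ hσ hdesc hW w hw.1 hw.2.1 hw.2.2 ht
  have hz : z ≠ 0 ∧ ValCube3 z ∧ LocCube z := ⟨hz0, hzv, hzl⟩
  have hz1 := hcl _ hz
  have hz2 := hcl _ hz1
  apply hst z hz
  apply hst _ hz1
  apply hst _ hz2
  have hσz : σ z ≠ 0 := by
    intro h
    exact hz0 (by simpa using h)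
  have hσσz : σ (σ z) ≠ 0 := by
    intro h
    exact hσz (by simpa using h)
  refine ⟨σ z / σ (σ z), ?_⟩
  simp only [map_div₀, hσ3]
  field_simp

theorem base3 {K L : Type} [Field K] [NumberField K] [Field L] [NumberField L] [Algebra K L]
    (h1 : finrank K L = 1) (hu : UnrOut3 K L) (hmu : NoMu K) (hW : W3 K) : NoMu L ∧ W3 L := by
  refine ⟨?_, ?_⟩
  · intro ψ t ht h3
    exact hmu (ψ.comp (algebraMap K L)) t (Pool.Agent.Leo3.H21.inLoc_down h1 (fun _ => rfl) ht) h3
  · intro z hz hv hl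
    obtain ⟨y, rfl⟩ := Pool.Agent.Leo3.H21.surj_of_one h1 z
    have hy : y ≠ 0 := by
      rintro rfl
      exact hz (map_zero _)
    have hvy : ValCube3 y := by
      intro q hq
      obtain ⟨P, hPm, hPl⟩ := Ideal.exists_maximal_ideal_liesOver_of_isIntegral (S := 𝓞 L)
        q.asIdeal
      have hP0 : P ≠ ⊥ := Ideal.ne_bot_of_liesOver_of_ne_bot q.ne_bot P
      let Q : HeightOneSpectrum (𝓞 L) := ⟨P, hPm.isPrime, hP0⟩
      have hm : (3 : 𝓞 L) ∉ P := by
        intro hm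
        apply hq
        have h7 : algebraMap (𝓞 K) (𝓞 L) 3 ∈ P := by
          rwa [map_ofNat]
        rw [hPl.over]
        exact h7
      have hQl : Q.asIdeal.LiesOver q.asIdeal := hPl
      have h8 := HeightOneSpectrum.valuation_liesOver L q Q y
      have hun := hu P hP0 hm
      have h9 : q.asIdeal.ramificationIdx' Q.asIdeal = 1 := Pool.Agent.Leo3.H21.ram_one q.asIdeal P hP0 hun
      rw [h9, pow_one] at h8
      rw [h8]
      exact hv Q hm
    have hly : LocCube y := by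
      intro φ
      obtain ⟨ψ, hψ⟩ := Pool.Agent.Leo3.H21.exists_ext (L := L) φ
      obtain ⟨t, ht, h3⟩ := hl ψ
      exact ⟨t, Pool.Agent.Leo3.H21.inLoc_down h1 hψ ht, by rw [h3, hψ]⟩
    obtain ⟨t, ht⟩ := hW y hy hvy hly
    exact ⟨algebraMap K L t, by rw [← map_pow, ht]⟩

/-- GUP3. -/
theorem gup3 : Gup3Stmt := by
  intro K L _ _ _ _ _ _ k
  revert K L
  induction k with
  | zero =>
    intro K L _ _ _ _ _ _ h hu hmu hW
    exact base3 (by simpa using h) hu hmu hW
  | succ k ih =>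
    intro K L _ _ _ _ _ _ h hu hmu hW
    obtain ⟨N, hnor, h1, h2⟩ := Pool.Agent.Leo3.H21.exists_mid h
    let E := IntermediateField.fixedField N
    have : NumberField E := NumberField.of_intermediateField E
    have hu1 : UnrOut3 K E := by
      intro p hp hp0 hm
      have hpm : p.IsMaximal := hp.isMaximal hp0
      obtain ⟨P, hPm, hPl⟩ := Ideal.exists_maximal_ideal_liesOver_of_isIntegral (S := 𝓞 L) p
      have hP0 : P ≠ ⊥ := Ideal.ne_bot_of_liesOver_of_ne_bot hp0 P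
      have hm3 : (3 : 𝓞 L) ∉ P := by
        intro h7
        apply hm
        have h8 : algebraMap (𝓞 E) (𝓞 L) 3 ∈ P := by
          rwa [map_ofNat]
        rw [hPl.over]
        exact h8
      have hPp : P.IsPrime := hPm.isPrime
      have := hu P hP0 hm3
      exact Algebra.IsUnramifiedAt.of_liesOver (R := 𝓞 K) p P
    have hu2 : UnrOut3 E L := by
      intro P hP hP0 hm
      have := hu P hP0 hm
      exact Algebra.IsUnramifiedAt.of_restrictScalars (R := 𝓞 K) P
    obtain ⟨hm1, hW1⟩ := gupStep K E h1 hu1 hmu hW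
    exact ih E L h2 hu2 hm1 hW1

end Pool.Agent.LeoK.H19
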