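import Pool.Agent.LeoK.CountStmts

/-!
# Squad leok, module VOR: the covering radius of a lattice

The covering radius is bounded in terms of the length of the shortest vector and the covolume: a
point far from the lattice gives many disjoint balls in the Voronoi cell of the origin.
-/

set_option autoImplicit false

open MeasureTheory Module Submodule

namespace Pool.Agent.LeoK.H19

section cell

variable {N : ℕ}

/-- a nearest lattice point -/
theorem exists_nearest (b : Basis (Fin N) ℝ (EuclideanSpace ℝ (Fin N)))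
    (x : EuclideanSpace ℝ (Fin N)) :
    ∃ y ∈ span ℤ (Set.range b), ∀ l ∈ span ℤ (Set.range b), ‖x - y‖ ≤ ‖x - l‖ := by
  have hfin : (Metric.closedBall x ‖x‖ ∩ (span ℤ (Set.range b) : Set _)).Finite :=
    ZSpan.setFinite_inter b Metric.isBounded_closedBall
  have hne : (Metric.closedBall x ‖x‖ ∩ (span ℤ (Set.range b) : Set _)).Nonempty := by
    refine ⟨0, ?_, Submodule.zero_mem _⟩
    rw [Metric.mem_closedBall, dist_zero_left]
  obtain ⟨y, hy, hmin⟩ := Set.exists_min_image _ (fun y => ‖x - y‖) hfin hne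
  refine ⟨y, hy.2, fun l hl => ?_⟩
  by_cases h : l ∈ Metric.closedBall x ‖x‖
  · exact hmin l ⟨h, hl⟩
  · rw [Metric.mem_closedBall, not_le, dist_eq_norm, norm_sub_rev] at h
    have h1 := hy.1
    rw [Metric.mem_closedBall, dist_eq_norm, norm_sub_rev] at h1
    exact h1.trans h.le

/-- points of the open cell -/
theorem mem_cell {r s : ℝ} (hs0 : 0 ≤ s) (hs : s ≤ 1 / 2)
    {x l z : EuclideanSpace ℝ (Fin N)} (hl : 2 * r ≤ ‖l‖) (hl0 : 0 < ‖l‖)
    (hx : ‖x‖ ≤ ‖x - l‖) (hz : ‖z - s • x‖ < r / 2) : ‖z‖ < ‖z - l‖ := by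
  have h1 : ‖x - l‖ ^ 2 = ‖x‖ ^ 2 - 2 * inner ℝ x l + ‖l‖ ^ 2 := norm_sub_sq_real x l
  have h2 : ‖z - l‖ ^ 2 = ‖z‖ ^ 2 - 2 * inner ℝ z l + ‖l‖ ^ 2 := norm_sub_sq_real z l
  have h3 : ‖x‖ ^ 2 ≤ ‖x - l‖ ^ 2 := pow_le_pow_left₀ (norm_nonneg _) hx 2
  have h4 : inner ℝ z l = s * inner ℝ x l + inner ℝ (z - s • x) l := by
    rw [inner_sub_left, real_inner_smul_left]
    ring
  have h5 : inner ℝ (z - s • x) l ≤ ‖z - s • x‖ * ‖l‖ := real_inner_le_norm _ _
  have h6 : ‖z - s • x‖ * ‖l‖ < r / 2 * ‖l‖ := mul_lt_mul_of_pos_right hz hl0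
  have h7 : 2 * inner ℝ x l ≤ ‖l‖ ^ 2 := by linarith
  have h8 : s * (2 * inner ℝ x l) ≤ s * ‖l‖ ^ 2 := mul_le_mul_of_nonneg_left h7 hs0
  have h9 : s * ‖l‖ ^ 2 ≤ 1 / 2 * ‖l‖ ^ 2 := mul_le_mul_of_nonneg_right hs (by positivity)
  have h10 : r * ‖l‖ ≤ ‖l‖ ^ 2 / 2 := by nlinarith
  have h11 : ‖z‖ ^ 2 < ‖z - l‖ ^ 2 := by
    rw [h2, h4]
    nlinarith
  exact lt_of_pow_lt_pow_left₀ 2 (norm_nonneg _) h11

/-- the volume bound -/
theorem cell_bound (b : Basis (Fin N) ℝ (EuclideanSpace ℝ (Fin N))) {r : ℝ} (hr : 0 < r)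
    (hb : ∀ y ∈ span ℤ (Set.range b), y ≠ 0 → 2 * r ≤ ‖y‖)
    {x : EuclideanSpace ℝ (Fin N)} (hx : ∀ l ∈ span ℤ (Set.range b), ‖x‖ ≤ ‖x - l‖) (J : ℕ)
    (hJ : (J : ℝ) * (2 * r) ≤ ‖x‖) :
    ((J : ℝ) + 1) * (volume (Metric.ball (0 : EuclideanSpace ℝ (Fin N)) (r / 2))).toReal ≤
      (volume (ZSpan.fundamentalDomain b)).toReal := by
  classical
  -- the centres
  let c : ℕ → EuclideanSpace ℝ (Fin N) := fun j => ((j : ℝ) * r / ‖x‖) • x
  have hs0 : ∀ j : ℕ, 0 ≤ (j : ℝ) * r / ‖x‖ := fun j => by positivity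
  have hs : ∀ j ∈ Finset.range (J + 1), (j : ℝ) * r / ‖x‖ ≤ 1 / 2 := by
    intro j hj
    have h1 : (j : ℝ) ≤ J := by exact_mod_cast Nat.lt_succ_iff.1 (Finset.mem_range.1 hj)
    by_cases h0 : ‖x‖ = 0
    · rw [h0, div_zero]
      norm_num
    · have h2 : 0 < ‖x‖ := lt_of_le_of_ne (norm_nonneg x) (Ne.symm h0)
      rw [div_le_iff₀ h2]
      nlinarith
  have hdist : ∀ i ∈ Finset.range (J + 1), ∀ j ∈ Finset.range (J + 1), i ≠ j →
      r ≤ dist (c i) (c j) := by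
    intro i hi j hj hij
    have hJ1 : 1 ≤ J := by
      have := Finset.mem_range.1 hi
      have := Finset.mem_range.1 hj
      omega
    have h2 : 0 < ‖x‖ := by
      have h3 : (1 : ℝ) ≤ J := by exact_mod_cast hJ1
      nlinarith
    rw [dist_eq_norm]
    have h4 : c i - c j = (((i : ℝ) - j) * r / ‖x‖) • x := by
      simp only [c]
      rw [← sub_smul]
      congr 1
      ring
    rw [h4, norm_smul, Real.norm_eq_abs, abs_div, abs_mul, abs_of_pos hr, abs_of_pos h2,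
      div_mul_cancel₀ _ h2.ne']
    have h5 : (1 : ℝ) ≤ |(i : ℝ) - j| := by
      have h6 : (1 : ℤ) ≤ |(i : ℤ) - j| := Int.one_le_abs (by omega)
      have h7 : ((1 : ℤ) : ℝ) ≤ ((|(i : ℤ) - j| : ℤ) : ℝ) := by exact_mod_cast h6
      rw [Int.cast_abs] at h7
      push_cast at h7
      exact h7
    nlinarith
  let S : Set (EuclideanSpace ℝ (Fin N)) := ⋃ j ∈ Finset.range (J + 1), Metric.ball (c j) (r / 2)
  have hSo : IsOpen S := isOpen_biUnion fun j _ => Metric.isOpen_ball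
  have hcell : ∀ z ∈ S, ∀ l ∈ span ℤ (Set.range b), l ≠ 0 → ‖z‖ < ‖z - l‖ := by
    intro z hz l hl hl0
    obtain ⟨j, hj, hzj⟩ := Set.mem_iUnion₂.1 hz
    rw [Metric.mem_ball, dist_eq_norm] at hzj
    exact mem_cell (hs0 j) (hs j hj) (hb l hl hl0) (norm_pos_iff.2 hl0) (hx l hl) hzj
  -- the volume of `S`
  have hvol : volume S = ((J + 1 : ℕ) : ENNReal) * volume (Metric.ball (0 : EuclideanSpace ℝ (Fin N)) (r / 2)) := by
    rw [measure_biUnion_finset]
    · rw [Finset.sum_congr rfl (g := fun _ => volume (Metric.ball (0 : EuclideanSpace ℝ (Fin N)) (r / 2))),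
        Finset.sum_const, Finset.card_range, nsmul_eq_mul]
      intro j _
      exact Measure.addHaar_ball_center volume (c j) (r / 2)
    · intro i hi j hj hij
      apply Metric.ball_disjoint_ball
      have := hdist i hi j hj hij
      linarith
    · intro j _
      exact Metric.isOpen_ball.measurableSet
  have hle : volume S ≤ volume (ZSpan.fundamentalDomain b) := by
    by_contra hcon
    rw [not_le] at hcon
    have hdis : DiscreteTopology (span ℤ (Set.range b)) := inferInstance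
    have hcount : Countable (span ℤ (Set.range b)).toAddSubgroup :=
      inferInstanceAs (Countable (span ℤ (Set.range b)))
    obtain ⟨u, v, huv, hnd⟩ := exists_pair_mem_lattice_not_disjoint_vadd
      (ZSpan.isAddFundamentalDomain' b volume) hSo.measurableSet.nullMeasurableSet hcon
    rw [Set.not_disjoint_iff] at hnd
    obtain ⟨p, ⟨z₁, hz₁, rfl⟩, ⟨z₂, hz₂, hp⟩⟩ := hnd
    have hp' : (v : EuclideanSpace ℝ (Fin N)) + z₂ = (u : EuclideanSpace ℝ (Fin N)) + z₁ := hp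
    have hl : ((u : EuclideanSpace ℝ (Fin N)) - v) ∈ span ℤ (Set.range b) := Submodule.sub_mem _ u.2 v.2
    have hl0 : (u : EuclideanSpace ℝ (Fin N)) - v ≠ 0 := fun h => huv (Subtype.ext (sub_eq_zero.1 h))
    have hl' : ((v : EuclideanSpace ℝ (Fin N)) - u) ∈ span ℤ (Set.range b) := Submodule.sub_mem _ v.2 u.2
    have hl0' : (v : EuclideanSpace ℝ (Fin N)) - u ≠ 0 := fun h => huv (Subtype.ext (sub_eq_zero.1 h).symm)
    have e1 : z₂ - ((u : EuclideanSpace ℝ (Fin N)) - v) = z₁ := by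
      have : z₂ = (u : EuclideanSpace ℝ (Fin N)) + z₁ - v := by rw [← hp']; abel
      rw [this]
      abel
    have e2 : z₁ - ((v : EuclideanSpace ℝ (Fin N)) - u) = z₂ := by
      rw [← e1]
      abel
    have k1 := hcell z₂ hz₂ _ hl hl0
    have k2 := hcell z₁ hz₁ _ hl' hl0'
    rw [e1] at k1
    rw [e2] at k2
    exact lt_asymm k1 k2
  have hfin : volume (ZSpan.fundamentalDomain b) ≠ ⊤ :=
    (ZSpan.fundamentalDomain_isBounded b).measure_lt_top.ne
  have h := ENNReal.toReal_mono hfin hle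
  rw [hvol, ENNReal.toReal_mul, ENNReal.toReal_natCast] at h
  push_cast at h
  exact h

end cell

/-- VOR: the covering radius of a lattice. -/
theorem vor : VorStmt := by
  intro N ρ V hρ
  set v : ℝ := (volume (Metric.ball (0 : EuclideanSpace ℝ (Fin N)) (ρ / 2 / 2))).toReal with hv
  have hvpos : 0 < v := by
    rw [hv]
    apply ENNReal.toReal_pos
    · exact (Metric.measure_ball_pos volume _ (by positivity)).ne'
    · exact measure_ball_lt_top.ne
  refine ⟨ρ * V / v, fun b hb hV x => ?_⟩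
  obtain ⟨y, hy, hmin⟩ := exists_nearest b x
  refine ⟨y, hy, ?_⟩
  have hx : ∀ l ∈ span ℤ (Set.range b), ‖x - y‖ ≤ ‖x - y - l‖ := by
    intro l hl
    have := hmin (y + l) (Submodule.add_mem _ hy hl)
    rwa [← sub_sub] at this
  have hr : 0 < ρ / 2 := by positivity
  have hb' : ∀ y ∈ span ℤ (Set.range b), y ≠ 0 → 2 * (ρ / 2) ≤ ‖y‖ := by
    intro y hy h0
    have := hb y hy h0
    linarith
  set J : ℕ := ⌊‖x - y‖ / ρ⌋₊ with hJ
  have hJ1 : (J : ℝ) ≤ ‖x - y‖ / ρ := Nat.floor_le (by positivity)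
  have hJ2 : ‖x - y‖ / ρ < J + 1 := Nat.lt_floor_add_one _
  have hJ3 : (J : ℝ) * (2 * (ρ / 2)) ≤ ‖x - y‖ := by
    rw [le_div_iff₀ hρ] at hJ1
    linarith
  have key := cell_bound b hr hb' hx J hJ3
  rw [← hv] at key
  have h1 : ((J : ℝ) + 1) * v ≤ V := key.trans hV
  rw [div_lt_iff₀ hρ] at hJ2
  rw [le_div_iff₀ hvpos]
  have h2 : ‖x - y‖ * v ≤ ((J + 1) * ρ) * v := mul_le_mul_of_nonneg_right hJ2.le hvpos.le
  nlinarith

end Pool.Agent.LeoK.H19
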